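import Pool.Agent.Helper53.UV.Tree

/-!
# Project UR2 (MP_c578c8_lc), packet UV-SQS (adaptation of `Pool/Agent/Helper93/UR/SQS.lean`)
-/

namespace Pool.Agent.Helper34.UV

open Pool.Agent.Helper53.UV
open Pool.Agent.Helper53.UR (kd tb1 dv pv)
open Pool.Agent.Helper65.LinSpace (dig tab nrec ifz eq01 le01 lt01 Ctx LS num)
open Pool.Agent.Helper53.CTG (ev cut)

theorem log_child (v r : ℕ) (hv : v ≠ 0) (hr : r < 2) : Nat.log 2 (2 * v + r) = Nat.log 2 v + 1 := by
  rw [Nat.log_of_one_lt_of_le one_lt_two (by omega)]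
  congr 2
  omega

/-- the level of a node -/
theorem dv_eq {e K j i v : ℕ} (hi : i ≤ e)
    (h : Nat.log 2 v + (j * (e + 3) + i + 1) = K * (e + 3)) : dv e v = e + 2 - i := by
  unfold dv
  have hK : j + 1 ≤ K := by
    by_contra hlt
    have h1 : K ≤ j := by omega
    have h2 : K * (e + 3) ≤ j * (e + 3) := Nat.mul_le_mul_right _ h1
    omega
  obtain ⟨k, rfl⟩ := Nat.exists_eq_add_of_le hK
  have h3 : Nat.log 2 v = (e + 2 - i) + (e + 3) * k := by
    have h4 : (j + 1 + k) * (e + 3) = j * (e + 3) + (e + 3) + (e + 3) * k := by ring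
    rw [h4] at h
    omega
  rw [h3, Nat.add_mul_mod_self_left, Nat.mod_eq_of_lt (by omega)]

theorem pv_child {e v r : ℕ} (hv : v ≠ 0) (hr : r < 2) (h : dv e v + 1 < e + 3) :
    pv e (2 * v + r) = 2 * pv e v + r := by
  have h1 : dv e (2 * v + r) = dv e v + 1 := by
    unfold dv at *
    rw [log_child v r hv hr, Nat.add_mod, Nat.mod_eq_of_lt (show 1 < e + 3 by omega),
      Nat.mod_eq_of_lt h]
  unfold pv
  rw [h1]
  set d := dv e v
  have h2 : v = 2 ^ d * (v / 2 ^ d) + v % 2 ^ d := (Nat.div_add_mod v (2 ^ d)).symm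
  have h3 : v % 2 ^ d < 2 ^ d := Nat.mod_lt _ (by positivity)
  have h4 : 2 * v + r = (2 * (v % 2 ^ d) + r) + 2 ^ (d + 1) * (v / 2 ^ d) := by
    rw [pow_succ]
    calc 2 * v + r = 2 * (2 ^ d * (v / 2 ^ d) + v % 2 ^ d) + r := by rw [← h2]
      _ = _ := by ring
  rw [h4, Nat.add_mul_mod_self_left, Nat.mod_eq_of_lt]
  rw [pow_succ]
  omega

theorem gSQS : GoalSQS := by
  intro hKN hDG m e K b c j hT hL i
  obtain ⟨-, -, -, -, -, hkd⟩ := hKN e
  have hdg := hDG m hT.hm (2 ^ e) j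
  have hbd : ∀ t ≤ 2 ^ e, ZD m (2 ^ e) j t < 2 ^ b := by
    intro t ht
    refine (hdg t).1.trans_le (Nat.pow_le_pow_right (by norm_num) ?_)
    have := Nat.mul_le_mul_left m.g ht
    have := hT.hb
    omega
  induction i with
  | zero =>
    intro _ v hv hlog hp
    have hd := dv_eq (Nat.zero_le e) hlog
    rw [Nat.sub_zero] at hd hp
    set p := pv e v with hpdef
    have hk : kd e (dv e v) p = 4 := by
      rw [hd, hkd (e + 2) p (by omega) (by simpa using hp), if_pos le_rfl]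
    rw [Nat.sub_zero, pow_zero, mul_one]
    set t := p % 2 ^ e with ht
    have ht2 : t < 2 ^ e := Nat.mod_lt _ (by positivity)
    obtain ⟨-, -, hst, hsucc⟩ := hdg t
    obtain ⟨hst1, hst2⟩ := hst t le_rfl
    set σ := (m.conf (j * 2 ^ e + t)).1 with hσ
    have hA : m.A σ + 1 < 2 ^ c := by
      have h1 := hT.hm.hA σ
      have h2 : 2 ^ (m.ν + 1) ≤ 2 ^ c := Nat.pow_le_pow_right (by norm_num) hT.hν
      rw [pow_succ] at h2
      omega
    have hcb : 2 ^ c ≤ 2 ^ b := Nat.pow_le_pow_right (by norm_num) hT.hc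
    have harg : tb m e (K * (e + 3)) b 0 v (ZD m (2 ^ e) j t) 0 0 = m.A σ + 1 := by
      unfold tb
      rw [← hpdef, hk]
      simp only [ifz, if_pos, tb0]
      rw [← ht, hst1]
      simp only [Nat.reduceSub, OfNat.ofNat_ne_zero, one_ne_zero, if_false]
      exact Nat.mod_eq_of_lt (by omega)
    have hev : ev (tb m e (K * (e + 3)) b) (e + 3) c (j * (e + 3) + 0 + 1) v (ZD m (2 ^ e) j t) =
        tb m e (K * (e + 3)) b 2 v (ZD m (2 ^ e) j t)
          (ev (tb m e (K * (e + 3)) b) (e + 3) c (j * (e + 3) + 0) (2 * v)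
            (cut (e + 3) c (j * (e + 3) + 0) (tb m e (K * (e + 3)) b 0 v (ZD m (2 ^ e) j t) 0 0)))
          (ev (tb m e (K * (e + 3)) b) (e + 3) c (j * (e + 3) + 0) (2 * v + 1)
            (cut (e + 3) c (j * (e + 3) + 0) (tb m e (K * (e + 3)) b 1 v (ZD m (2 ^ e) j t)
              (ev (tb m e (K * (e + 3)) b) (e + 3) c (j * (e + 3) + 0) (2 * v)
                (cut (e + 3) c (j * (e + 3) + 0)
                  (tb m e (K * (e + 3)) b 0 v (ZD m (2 ^ e) j t) 0 0))) 0))) := rfl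
    rw [hev, harg]
    have hcut : cut (e + 3) c (j * (e + 3) + 0) (m.A σ + 1) = m.A σ + 1 := by
      unfold cut
      split_ifs
      · exact Nat.mod_eq_of_lt hA
      · rfl
    rw [hcut, add_zero]
    have hlog2 : Nat.log 2 (2 * v) + j * (e + 3) = K * (e + 3) := by
      have := log_child v 0 hv (by norm_num)
      rw [add_zero] at this
      rw [this, ← hlog]
      ring
    have hleft := hL (2 * v) (by omega) hlog2 (m.A σ + 1) hA
    rw [hleft]
    have hRJ : RJ m (2 ^ e) j (m.A σ + 1) = (m.conf (j * 2 ^ e)).2 (m.A σ) := by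
      unfold RJ ifz
      rw [if_neg (Nat.succ_ne_zero _), Nat.add_sub_cancel]
    rw [hRJ]
    generalize ev (tb m e (K * (e + 3)) b) (e + 3) c (j * (e + 3)) (2 * v + 1) _ = z
    unfold tb
    rw [← hpdef, hk]
    simp only [ifz, tb2, Nat.reduceSub, OfNat.ofNat_ne_zero, one_ne_zero, if_false]
    rw [← ht, hst1, hst2, ← hsucc]
    exact Nat.mod_eq_of_lt (hbd (t + 1) (by omega))
  | succ i ih =>
    intro hi v hv hlog hp
    have hd := dv_eq hi hlog
    set p := pv e v with hpdef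
    obtain ⟨f, hf⟩ : ∃ f, e = i + 1 + f := ⟨e - (i + 1), by omega⟩
    have hef : e - (i + 1) = f := by omega
    have hef1 : e - i = f + 1 := by omega
    rw [hef] at hp
    have hk : kd e (dv e v) p = 3 := by
      rw [hd, hkd (e + 2 - (i + 1)) p (by omega) (by
        rw [show e + 2 - (i + 1) - 2 = f by omega]; exact hp), if_neg (by omega)]
    have hpow : 2 ^ e = 2 ^ f * 2 ^ (i + 1) := by rw [← pow_add]; congr 1; omega
    have hpf : p % 2 ^ f < 2 ^ f := Nat.mod_lt _ (by positivity)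
    have ht2 : p % 2 ^ f * 2 ^ (i + 1) + 2 ^ (i + 1) ≤ 2 ^ e := by
      rw [hpow]
      calc p % 2 ^ f * 2 ^ (i + 1) + 2 ^ (i + 1) = (p % 2 ^ f + 1) * 2 ^ (i + 1) := by ring
        _ ≤ 2 ^ f * 2 ^ (i + 1) := Nat.mul_le_mul_right _ hpf
    rw [hef]
    set t := p % 2 ^ f * 2 ^ (i + 1) with ht
    have hii : 2 ^ i + 2 ^ i = 2 ^ (i + 1) := by rw [pow_succ]; ring
    have hdv : dv e v + 1 < e + 3 := by omega
    -- the children
    have hchild : ∀ r, r < 2 → ev (tb m e (K * (e + 3)) b) (e + 3) c (j * (e + 3) + (i + 1))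
        (2 * v + r) (ZD m (2 ^ e) j (t + r * 2 ^ i)) = ZD m (2 ^ e) j (t + r * 2 ^ i + 2 ^ i) := by
      intro r hr
      have hpc := pv_child (r := r) hv hr hdv
      rw [← hpdef] at hpc
      have hlogc : Nat.log 2 (2 * v + r) + (j * (e + 3) + i + 1) = K * (e + 3) := by
        rw [log_child v r hv hr, ← hlog]
        ring
      have hq1 : (2 * p + r) / 2 ^ (f + 1) = 3 := by
        rw [pow_succ, mul_comm (2 ^ f) 2, ← Nat.div_div_eq_div_mul, show (2 * p + r) / 2 = p by omega]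
        exact hp
      have hq2 : (2 * p + r) % 2 ^ (f + 1) * 2 ^ i = t + r * 2 ^ i := by
        have h2 : p = 2 ^ f * (p / 2 ^ f) + p % 2 ^ f := (Nat.div_add_mod p (2 ^ f)).symm
        have h4 : 2 * p + r = (2 * (p % 2 ^ f) + r) + 2 ^ (f + 1) * (p / 2 ^ f) := by
          rw [pow_succ]
          calc 2 * p + r = 2 * (2 ^ f * (p / 2 ^ f) + p % 2 ^ f) + r := by rw [← h2]
            _ = _ := by ring
        rw [h4, Nat.add_mul_mod_self_left, Nat.mod_eq_of_lt (by rw [pow_succ]; omega), ht, pow_succ]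
        ring
      have h := ih (by omega) (2 * v + r) (by omega) hlogc (by rw [hef1, hpc]; exact hq1)
      rw [hef1, hpc, hq2] at h
      exact h
    have hleft := hchild 0 (by norm_num)
    have hright := hchild 1 (by norm_num)
    rw [zero_mul, add_zero, add_zero] at hleft
    rw [one_mul, add_assoc, hii] at hright
    have hncut : ∀ x, cut (e + 3) c (j * (e + 3) + (i + 1)) x = x := by
      intro x
      unfold cut
      rw [if_neg]
      rw [mul_comm, Nat.mul_add_mod, Nat.mod_eq_of_lt (by omega)]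
      omega
    have hev : ev (tb m e (K * (e + 3)) b) (e + 3) c (j * (e + 3) + (i + 1) + 1) v
        (ZD m (2 ^ e) j t) =
        tb m e (K * (e + 3)) b 2 v (ZD m (2 ^ e) j t)
          (ev (tb m e (K * (e + 3)) b) (e + 3) c (j * (e + 3) + (i + 1)) (2 * v)
            (cut (e + 3) c (j * (e + 3) + (i + 1))
              (tb m e (K * (e + 3)) b 0 v (ZD m (2 ^ e) j t) 0 0)))
          (ev (tb m e (K * (e + 3)) b) (e + 3) c (j * (e + 3) + (i + 1)) (2 * v + 1)
            (cut (e + 3) c (j * (e + 3) + (i + 1)) (tb m e (K * (e + 3)) b 1 v (ZD m (2 ^ e) j t)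
              (ev (tb m e (K * (e + 3)) b) (e + 3) c (j * (e + 3) + (i + 1)) (2 * v)
                (cut (e + 3) c (j * (e + 3) + (i + 1))
                  (tb m e (K * (e + 3)) b 0 v (ZD m (2 ^ e) j t) 0 0))) 0))) := rfl
    have hi1 : 0 < 2 ^ i := by positivity
    have a0 : tb m e (K * (e + 3)) b 0 v (ZD m (2 ^ e) j t) 0 0 = ZD m (2 ^ e) j t := by
      unfold tb
      rw [← hpdef, hk]
      simp only [ifz, tb0, Nat.reduceSub, OfNat.ofNat_ne_zero, one_ne_zero, if_false, if_true]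
      exact Nat.mod_eq_of_lt (hbd t (by omega))
    have a1 : ∀ x, tb m e (K * (e + 3)) b 1 v x (ZD m (2 ^ e) j (t + 2 ^ i)) 0 =
        ZD m (2 ^ e) j (t + 2 ^ i) := by
      intro x
      unfold tb
      rw [← hpdef, hk]
      simp only [ifz, tb1, Nat.reduceSub, OfNat.ofNat_ne_zero, one_ne_zero, if_false, if_true,
        Nat.sub_self]
      exact Nat.mod_eq_of_lt (hbd _ (by omega))
    have a2 : ∀ x y, tb m e (K * (e + 3)) b 2 v x y (ZD m (2 ^ e) j (t + 2 ^ (i + 1))) =
        ZD m (2 ^ e) j (t + 2 ^ (i + 1)) := by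
      intro x y
      unfold tb
      rw [← hpdef, hk]
      simp only [ifz, tb2, Nat.reduceSub, OfNat.ofNat_ne_zero, one_ne_zero, if_false, if_true]
      exact Nat.mod_eq_of_lt (hbd _ ht2)
    rw [hev, a0, hncut, hleft, a1, hncut, hright, a2]

end Pool.Agent.Helper34.UV
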